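import Mathlib

/-!
# Complete filters without the Galvin property

For every regular uncountable cardinal `κ` there is a proper `κ`-complete filter on `κ`, containing all
closed unbounded sets, which does not have the Galvin property. No cardinal arithmetic is used.
The filter is generated by the club filter and the complements of the members of an almost disjoint
family of `κ⁺` stationary sets.
-/

set_option autoImplicit false

namespace Pool.Agent.Results.MP_45cf3b_lc.ClubFilterExtension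

open Cardinal Set Order

universe u

/-- The Galvin property of a filter `F` on the cardinal `κ`: among any `κ⁺` members of `F` (a sequence
indexed by `κ⁺`) there are `κ` many whose intersection belongs to `F`. -/
def GalvinProperty (κ : Cardinal.{u}) (F : Filter κ.ord.ToType) : Prop :=
  ∀ A : (succ κ).ord.ToType → Set κ.ord.ToType, (∀ i, A i ∈ F) →
    ∃ I : Set (succ κ).ord.ToType, #I = κ ∧ (⋂ i ∈ I, A i) ∈ F

section Stat

variable {K : Type u} [LinearOrder K] [WellFoundedLT K]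

lemma bdd_of_lt {T : Set K} (hT : #T < Order.cof K) : ∃ b, ∀ k ∈ T, k < b := by
  rw [← not_isCofinal_iff]
  intro h
  exact absurd (Order.cof_le h) (not_le.2 hT)

lemma bdd_of_countable (hunc : ℵ₀ < Order.cof K) {T : Set K}
    (hT : T.Countable) : ∃ b, ∀ k ∈ T, k < b :=
  bdd_of_lt ((Cardinal.le_aleph0_iff_set_countable.2 hT).trans_lt hunc)

lemma exists_isLUB {T : Set K} (hb : ∃ b, ∀ k ∈ T, k ≤ b) : ∃ a, IsLUB T a := by
  obtain ⟨b, hb⟩ := hb
  have hne : {x : K | ∀ k ∈ T, k ≤ x}.Nonempty := ⟨b, hb⟩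
  refine ⟨WellFounded.min (wellFounded_lt (α := K)) _ hne, ?_, ?_⟩
  · intro k hk
    exact (WellFounded.min_mem (wellFounded_lt (α := K)) _ hne) k hk
  · intro x hx
    exact not_lt.1 (WellFounded.not_lt_min (wellFounded_lt (α := K)) {x : K | ∀ k ∈ T, k ≤ x} hx)

lemma isClub_Ioi (hunc : ℵ₀ < Order.cof K) (η : K) : IsClub (Ioi η) := by
  constructor
  · intro d hd hne _ a ha
    obtain ⟨x, hx⟩ := hne
    exact lt_of_lt_of_le (hd hx) (ha.1 hx)
  · intro x
    obtain ⟨b, hb⟩ := bdd_of_countable hunc (countable_singleton (max x η))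
    have := hb _ rfl
    exact ⟨b, lt_of_le_of_lt (le_max_right _ _) this, (le_max_left _ _).trans this.le⟩

/-- Diagonal intersections of clubs are clubs. -/
lemma isClub_diag (hunc : ℵ₀ < Order.cof K) (hIic : ∀ k : K, #(Iic k) < Order.cof K)
    (C : K → Set K) (hC : ∀ k, IsClub (C k)) : IsClub {a | ∀ γ < a, a ∈ C γ} := by
  constructor
  · intro d hd hne _ a ha γ hγ
    have h1 : ∃ x ∈ d, γ < x := by
      by_contra hcon
      push Not at hcon
      exact absurd (ha.2 hcon) (not_le.2 hγ)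
    obtain ⟨x, hx, hγx⟩ := h1
    refine (hC γ).isLUB_mem (t := {y ∈ d | γ < y}) (fun y hy => hd hy.1 γ hy.2) ⟨x, hx, hγx⟩ ⟨?_, ?_⟩
    · intro y hy
      exact ha.1 hy.1
    · intro b hb
      apply ha.2
      intro y hy
      rcases lt_or_ge γ y with h | h
      · exact hb ⟨hy, h⟩
      · exact h.trans (hγx.le.trans (hb ⟨hx, hγx⟩))
  · intro a₀
    have hstep : ∀ a : K, ∃ b, a < b ∧ ∀ γ ≤ a, b ∈ C γ := by
      intro a
      have h1 : IsClub (⋂ γ : Iic a, C γ) := by
        apply IsClub.iInter hunc.ne'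
        · simpa using hIic a
        · intro i; exact hC _
      haveI : Nonempty K := ⟨a⟩
      obtain ⟨b, hb⟩ := (h1.inter hunc.ne' (isClub_Ioi hunc a)).nonempty
      refine ⟨b, hb.2, ?_⟩
      intro γ hγ
      exact mem_iInter.1 hb.1 ⟨γ, hγ⟩
    choose g hg1 hg2 using hstep
    let s : ℕ → K := fun n => g^[n] a₀
    have hs : ∀ n, s (n + 1) = g (s n) := fun n => Function.iterate_succ_apply' g n a₀
    have hmono : StrictMono s := strictMono_nat_of_lt_succ fun n => by rw [hs]; exact hg1 _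
    obtain ⟨b, hb⟩ := bdd_of_countable hunc (countable_range s)
    obtain ⟨x, hx⟩ := exists_isLUB (T := range s) ⟨b, fun k hk => (hb k hk).le⟩
    refine ⟨x, ?_, ?_⟩
    · intro γ hγ
      have h1 : ∃ n, γ < s n := by
        by_contra hcon
        push Not at hcon
        exact absurd (hx.2 (by rintro _ ⟨n, rfl⟩; exact hcon n)) (not_le.2 hγ)
      obtain ⟨n, hn⟩ := h1
      refine (hC γ).isLUB_mem (t := s '' (Ioi n)) ?_ ⟨_, ⟨n + 1, Nat.lt_succ_self n, rfl⟩⟩ ⟨?_, ?_⟩
      · rintro _ ⟨m, hm, rfl⟩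
        obtain ⟨m, rfl⟩ : ∃ m', m = m' + 1 := ⟨m - 1, by have : n < m := hm; omega⟩
        have hm' : n ≤ m := Nat.lt_succ_iff.1 hm
        rw [hs]
        exact hg2 (s m) γ (hn.le.trans (hmono.monotone hm'))
      · rintro _ ⟨m, -, rfl⟩
        exact hx.1 ⟨m, rfl⟩
      · intro c hc
        apply hx.2
        rintro _ ⟨m, rfl⟩
        have h2 : m < max m n + 1 := by omega
        have h3 : n < max m n + 1 := by omega
        exact (hmono h2).le.trans (hc ⟨max m n + 1, h3, rfl⟩)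
    · exact hx.1 ⟨0, rfl⟩

/-- Fodor's lemma. -/
lemma fodor (hunc : ℵ₀ < Order.cof K) (hIic : ∀ k : K, #(Iic k) < Order.cof K)
    {S : Set K} (hS : IsStationary S) (f : K → K) (hf : ∀ a ∈ S, f a < a) :
    ∃ γ, IsStationary {a | a ∈ S ∧ f a = γ} := by
  by_contra hcon
  push Not at hcon
  have h1 : ∀ γ, ∃ t, IsClub t ∧ Disjoint {a | a ∈ S ∧ f a = γ} t := fun γ =>
    not_isStationary_iff.1 (hcon γ)
  choose C hC1 hC2 using h1
  obtain ⟨a, haS, ha⟩ := hS (isClub_diag hunc hIic C hC1)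
  exact disjoint_left.1 (hC2 (f a)) ⟨haS, rfl⟩ (ha (f a) (hf a haS))

/-- The points of cofinality `ω`. -/
def Eω (K : Type u) [LinearOrder K] : Set K := {a | ∃ c : ℕ → K, StrictMono c ∧ IsLUB (range c) a}

lemma stat_Eω [Nonempty K] (hunc : ℵ₀ < Order.cof K) : IsStationary (Eω K) := by
  intro C hC
  have hstep : ∀ a : K, ∃ b ∈ C, a < b := by
    intro a
    obtain ⟨b, hb1, hb2⟩ := (hC.inter hunc.ne' (isClub_Ioi hunc a)).nonempty
    exact ⟨b, hb1, hb2⟩
  choose g hg1 hg2 using hstep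
  let a₀ : K := Classical.arbitrary K
  let s : ℕ → K := fun n => g^[n + 1] a₀
  have hs : ∀ n, s (n + 1) = g (s n) := fun n => Function.iterate_succ_apply' g (n + 1) a₀
  have hsC : ∀ n, s n ∈ C := fun n => by
    have : s n = g (g^[n] a₀) := Function.iterate_succ_apply' g n a₀
    rw [this]; exact hg1 _
  have hmono : StrictMono s := strictMono_nat_of_lt_succ fun n => by rw [hs]; exact hg2 _
  obtain ⟨b, hb⟩ := bdd_of_countable hunc (countable_range s)
  obtain ⟨x, hx⟩ := exists_isLUB (T := range s) ⟨b, fun k hk => (hb k hk).le⟩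
  refine ⟨x, ⟨s, hmono, hx⟩, hC.isLUB_mem ?_ (range_nonempty s) hx⟩
  rintro _ ⟨n, rfl⟩
  exact hsC n

/-- There are `#K` pairwise disjoint stationary sets. -/
lemma exists_disjoint_stat [Nonempty K] (hunc : ℵ₀ < Order.cof K) (hreg : Order.cof K = #K)
    (hIic : ∀ k : K, #(Iic k) < Order.cof K) :
    ∃ S : K → Set K, (∀ k, IsStationary (S k)) ∧ ∀ k l, k ≠ l → Disjoint (S k) (S l) := by
  classical
  have hc : ∀ a : K, ∃ c : ℕ → K, a ∈ Eω K → StrictMono c ∧ IsLUB (range c) a := by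
    intro a
    by_cases h : a ∈ Eω K
    · obtain ⟨c, hc⟩ := h
      exact ⟨c, fun _ => hc⟩
    · exact ⟨fun _ => a, fun h' => absurd h' h⟩
  choose c hc using hc
  have h1 : ∃ n, ∀ η, IsStationary {a | a ∈ Eω K ∧ η ≤ c a n} := by
    by_contra hcon
    push Not at hcon
    choose η hη using hcon
    choose C hC1 hC2 using fun n => not_isStationary_iff.1 (hη n)
    obtain ⟨b, hb⟩ := bdd_of_countable hunc (countable_range η)
    have hclub : IsClub ((⋂ n, C n) ∩ Ioi b) :=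
      (IsClub.iInter_of_countable hunc.ne' hC1).inter hunc.ne' (isClub_Ioi hunc b)
    obtain ⟨a, haE, haC, hab⟩ := stat_Eω hunc hclub
    have h2 : ∀ n, c a n ≤ b := by
      intro n
      by_contra hlt
      push Not at hlt
      exact disjoint_left.1 (hC2 n) ⟨haE, ((hb _ ⟨n, rfl⟩).trans hlt).le⟩ (mem_iInter.1 haC n)
    exact absurd ((hc a haE).2.2 (by rintro _ ⟨n, rfl⟩; exact h2 n)) (not_le.2 hab)
  obtain ⟨n, hn⟩ := h1
  have h2 : ∀ η, ∃ γ, η ≤ γ ∧ IsStationary {a | a ∈ Eω K ∧ c a n = γ} := by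
    intro η
    obtain ⟨γ, hγ⟩ := fodor hunc hIic (hn η) (fun a => c a n) (by
      intro a ha
      exact lt_of_lt_of_le ((hc a ha.1).1 (Nat.lt_succ_self n)) ((hc a ha.1).2.1 ⟨n + 1, rfl⟩))
    obtain ⟨a, ha⟩ := hγ.nonempty
    refine ⟨γ, ?_, hγ.mono ?_⟩
    · rw [← ha.2]; exact ha.1.2
    · intro x hx; exact ⟨hx.1.1, hx.2⟩
  let Γ : Set K := {γ | IsStationary {a | a ∈ Eω K ∧ c a n = γ}}
  have hΓ : IsCofinal Γ := by
    intro η
    obtain ⟨γ, h3, h4⟩ := h2 η
    exact ⟨γ, h4, h3⟩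
  have hcard : #K ≤ #Γ := by rw [← hreg]; exact Order.cof_le hΓ
  obtain ⟨e⟩ := hcard
  refine ⟨fun k => {a | a ∈ Eω K ∧ c a n = (e k : K)}, fun k => (e k).2, ?_⟩
  intro k l hkl
  rw [disjoint_left]
  rintro a ⟨_, h3⟩ ⟨_, h4⟩
  apply hkl
  apply e.injective
  apply Subtype.ext
  rw [← h3, ← h4]

/-- A function eventually different from given ones. -/
lemma exists_evdiff (hreg : Order.cof K = #K) (hIic : ∀ k : K, #(Iic k) < Order.cof K)
    {L : Type u} (T : Set L) (hT : #T ≤ #K) (f : L → K → K) :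
    ∃ g : K → K, ∀ i ∈ T, ∃ k₀, ∀ k, k₀ ≤ k → g k ≠ f i k := by
  classical
  obtain ⟨e⟩ := hT
  have h1 : ∀ k : K, ∃ y : K, ∀ i : T, e i ≤ k → y ≠ f i k := by
    intro k
    by_contra hcon
    push Not at hcon
    choose i hi1 hi2 using hcon
    have hinj : Function.Injective fun y : K => (⟨e (i y), hi1 y⟩ : Iic k) := by
      intro y y' h
      have h3 : i y = i y' := e.injective (congrArg Subtype.val h)
      rw [hi2 y, hi2 y', h3]
    have := Cardinal.mk_le_of_injective hinj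
    rw [← hreg] at this
    exact absurd this (not_le.2 (hIic k))
  choose g hg using h1
  exact ⟨g, fun i hi => ⟨e ⟨i, hi⟩, fun k hk => hg k ⟨i, hi⟩ hk⟩⟩

/-- `κ⁺` many pairwise eventually different functions. -/
lemma exists_family (hreg : Order.cof K = #K) (hIic : ∀ k : K, #(Iic k) < Order.cof K)
    (L : Type u) [LinearOrder L] [WellFoundedLT L] (hL : ∀ i : L, #(Iio i) ≤ #K) :
    ∃ f : L → K → K, ∀ i j, i ≠ j → ∃ k₀, ∀ k, k₀ ≤ k → f i k ≠ f j k := by
  classical
  have hstep : ∀ (j : L) (f : ∀ i : L, i < j → K → K), ∃ g : K → K, ∀ i (hi : i < j),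
      ∃ k₀, ∀ k, k₀ ≤ k → g k ≠ f i hi k := by
    intro j f
    by_cases hK : Nonempty K
    · obtain ⟨g, hg⟩ := exists_evdiff hreg hIic (Iio j) (hL j)
        (fun i k => if h : i < j then f i h k else k)
      refine ⟨g, fun i hi => ?_⟩
      obtain ⟨k₀, hk₀⟩ := hg i hi
      refine ⟨k₀, fun k hk => ?_⟩
      have := hk₀ k hk
      rwa [dif_pos hi] at this
    · refine ⟨id, fun i hi => ?_⟩
      have hc : Order.cof K = 0 := by
        rw [hreg, Cardinal.mk_eq_zero_iff]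
        exact not_nonempty_iff.1 hK
      exact absurd (⟨i⟩ : Nonempty L) (by
        intro _
        have h5 : #(Iio j) ≤ #K := hL j
        rw [← hreg, hc, nonpos_iff_eq_zero, Cardinal.mk_eq_zero_iff] at h5
        exact h5.elim ⟨i, hi⟩)
  choose g hg using hstep
  let f : L → K → K := WellFoundedLT.fix (fun j (F : ∀ i : L, i < j → K → K) => g j F)
  have hf : ∀ j, f j = g j (fun i _ => f i) := fun j => WellFoundedLT.fix_eq _ j
  have key : ∀ i j, i < j → ∃ k₀, ∀ k, k₀ ≤ k → f j k ≠ f i k := by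
    intro i j hij
    obtain ⟨k₀, hk₀⟩ := hg j (fun i _ => f i) i hij
    refine ⟨k₀, fun k hk => ?_⟩
    rw [hf j]
    exact hk₀ k hk
  refine ⟨f, fun i j hij => ?_⟩
  rcases lt_or_gt_of_ne hij with h | h
  · obtain ⟨k₀, hk₀⟩ := key i j h
    exact ⟨k₀, fun k hk => (hk₀ k hk).symm⟩
  · exact key j i h

end Stat

/-- The filter generated by the clubs and the complements of the sets `B j`, closed under
intersections of fewer than `κ` sets. -/
def genFilter {K L : Type u} [LinearOrder K] [WellFoundedLT K] (κ : Cardinal.{u}) (hκ : κ.IsRegular)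
    (hc : Order.cof K ≠ ℵ₀) (B : L → Set K) : Filter K where
  sets := {X | ∃ J : Set L, #J < κ ∧ ∃ C : Set K, IsClub C ∧ C ∩ (⋂ j ∈ J, (B j)ᶜ) ⊆ X}
  univ_sets := ⟨∅, by simpa using Cardinal.aleph0_pos.trans_le hκ.aleph0_le, univ, IsClub.univ,
    subset_univ _⟩
  sets_of_superset := by
    rintro X Y ⟨J, hJ, C, hC, h⟩ hXY
    exact ⟨J, hJ, C, hC, h.trans hXY⟩
  inter_sets := by
    rintro X Y ⟨J, hJ, C, hC, h⟩ ⟨J', hJ', C', hC', h'⟩
    refine ⟨J ∪ J', (Cardinal.mk_union_le _ _).trans_lt (Cardinal.add_lt_of_lt hκ.aleph0_le hJ hJ'),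
      C ∩ C', hC.inter hc hC', ?_⟩
    rintro x ⟨⟨hx1, hx2⟩, hx3⟩
    simp only [mem_iInter] at hx3
    refine ⟨h ⟨hx1, ?_⟩, h' ⟨hx2, ?_⟩⟩
    · simp only [mem_iInter]; exact fun j hj => hx3 j (Or.inl hj)
    · simp only [mem_iInter]; exact fun j hj => hx3 j (Or.inr hj)

/-- For every regular uncountable cardinal `κ` there is a proper `κ`-complete filter `F` on `κ`
that contains all closed unbounded sets and does not have the Galvin property; moreover, for
some `κ⁺` members of `F` no intersection of `κ` or more of them belongs to `F`. -/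
theorem result (κ : Cardinal.{u}) (hκ : κ.IsRegular) (hunc : ℵ₀ < κ) :
    ∃ F : Filter κ.ord.ToType, F.NeBot ∧ CardinalInterFilter F κ ∧
      (∀ C : Set κ.ord.ToType, IsClub C → C ∈ F) ∧ ¬ GalvinProperty κ F ∧
      ∃ A : (succ κ).ord.ToType → Set κ.ord.ToType, (∀ i, A i ∈ F) ∧
        ∀ I : Set (succ κ).ord.ToType, κ ≤ #I → (⋂ i ∈ I, A i) ∉ F := by
  classical
  have hcard : #κ.ord.ToType = κ := mk_ord_toType κ
  have hcof : Order.cof κ.ord.ToType = κ := by
    rw [Ordinal.cof_toType]; exact hκ.cof_ord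
  have hreg : Order.cof κ.ord.ToType = #κ.ord.ToType := by rw [hcof, hcard]
  have huncK : ℵ₀ < Order.cof κ.ord.ToType := by rw [hcof]; exact hunc
  have hIio : ∀ k : κ.ord.ToType, #(Iio k) < κ := fun k => Cardinal.mk_Iio_toType_ord_lt k
  have hIic : ∀ k : κ.ord.ToType, #(Iic k) < Order.cof κ.ord.ToType := by
    intro k
    rw [hcof]
    have h1 : Iic k = Iio k ∪ {k} := by
      ext j; simp [le_iff_lt_or_eq]
    rw [h1]
    refine (Cardinal.mk_union_le _ _).trans_lt ?_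
    apply Cardinal.add_lt_of_lt hκ.aleph0_le (hIio k)
    rw [Cardinal.mk_singleton]
    exact Cardinal.one_lt_aleph0.trans_le hκ.aleph0_le
  haveI : Nonempty κ.ord.ToType := by
    rw [← Cardinal.mk_ne_zero_iff, hcard]
    exact (Cardinal.aleph0_pos.trans_le hκ.aleph0_le).ne'
  obtain ⟨S, hS1, hS2⟩ := exists_disjoint_stat huncK hreg hIic
  have hL : ∀ i : (succ κ).ord.ToType, #(Iio i) ≤ #κ.ord.ToType := by
    intro i
    rw [hcard]
    exact Order.lt_succ_iff.1 (Cardinal.mk_Iio_toType_ord_lt i)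
  obtain ⟨f, hf⟩ := exists_family hreg hIic (succ κ).ord.ToType hL
  have hprod : #(κ.ord.ToType × κ.ord.ToType) = #κ.ord.ToType := by
    rw [Cardinal.mk_prod, Cardinal.lift_id, hcard, Cardinal.mul_eq_self hκ.aleph0_le]
  obtain ⟨e⟩ := Cardinal.eq.1 hprod
  -- the almost disjoint stationary sets
  let B : (succ κ).ord.ToType → Set κ.ord.ToType := fun i => ⋃ k, S (e (k, f i k))
  have hBpos : ∀ (i : (succ κ).ord.ToType) (J : Set (succ κ).ord.ToType), #J < κ → i ∉ J →
      ∃ p, S p ⊆ B i ∧ ∀ j ∈ J, Disjoint (S p) (B j) := by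
    intro i J hJ hiJ
    have h1 : ∀ j : J, ∃ k₀, ∀ k, k₀ ≤ k → f i k ≠ f j k := by
      intro j
      apply hf
      rintro rfl
      exact hiJ j.2
    choose k₀ hk₀ using h1
    obtain ⟨b, hb⟩ := bdd_of_lt (T := range k₀) (by
      rw [hcof]
      exact Cardinal.mk_range_le.trans_lt hJ)
    refine ⟨e (b, f i b), subset_iUnion (fun k => S (e (k, f i k))) b, ?_⟩
    intro j hj
    rw [disjoint_iUnion_right]
    intro k
    apply hS2
    intro h
    have h2 := e.injective h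
    rw [Prod.mk.injEq] at h2
    obtain ⟨h3, h4⟩ := h2
    subst h3
    exact hk₀ ⟨j, hj⟩ b (hb _ ⟨_, rfl⟩).le h4
  let F : Filter κ.ord.ToType := genFilter κ hκ huncK.ne' B
  have hF : ∀ X, X ∈ F ↔ ∃ J : Set (succ κ).ord.ToType, #J < κ ∧ ∃ C : Set κ.ord.ToType,
      IsClub C ∧ C ∩ (⋂ j ∈ J, (B j)ᶜ) ⊆ X := fun X => Iff.rfl
  have hcardL : #(succ κ).ord.ToType = succ κ := mk_ord_toType _
  have hne : F.NeBot := by
    rw [Filter.neBot_iff, Ne, ← Filter.empty_mem_iff_bot, hF]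
    rintro ⟨J, hJ, C, hC, h⟩
    have h1 : ∃ i, i ∉ J := by
      by_contra hcon
      push Not at hcon
      have h2 : J = Set.univ := eq_univ_of_forall hcon
      rw [h2, Cardinal.mk_univ, hcardL] at hJ
      exact absurd hJ (not_lt.2 (Order.le_succ κ))
    obtain ⟨i, hi⟩ := h1
    obtain ⟨p, -, hp⟩ := hBpos i J hJ hi
    obtain ⟨x, hx1, hx2⟩ := hS1 p hC
    refine h ⟨hx2, ?_⟩
    simp only [mem_iInter]
    intro j hj hxj
    exact disjoint_left.1 (hp j hj) hx1 hxj
  have hcompl : CardinalInterFilter F κ := by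
    constructor
    intro 𝒮 h𝒮 hmem
    have h1 : ∀ s : 𝒮, ∃ J : Set (succ κ).ord.ToType, #J < κ ∧ ∃ C : Set κ.ord.ToType,
      IsClub C ∧ C ∩ (⋂ j ∈ J, (B j)ᶜ) ⊆ s := fun s => hmem s s.2
    choose J hJ C hC h using h1
    rw [hF]
    refine ⟨⋃ s, J s, ?_, ⋂ s, C s, ?_, ?_⟩
    · refine (Cardinal.mk_iUnion_le_sum_mk).trans_lt ?_
      apply Cardinal.sum_lt_of_isRegular hκ h𝒮 hJ
    · apply IsClub.iInter huncK.ne' _ hC
      rw [hcof, Cardinal.lift_id, Cardinal.lift_id]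
      exact h𝒮
    · rintro x ⟨hx1, hx2⟩ s hs
      refine h ⟨s, hs⟩ ⟨mem_iInter.1 hx1 ⟨s, hs⟩, ?_⟩
      simp only [mem_iInter] at hx2 ⊢
      intro j hj
      exact hx2 j (mem_iUnion.2 ⟨_, hj⟩)
  have hclub : ∀ C : Set κ.ord.ToType, IsClub C → C ∈ F := by
    intro C hC
    rw [hF]
    exact ⟨∅, by simpa using Cardinal.aleph0_pos.trans_le hκ.aleph0_le, C, hC, inter_subset_left⟩
  have hA1 : ∀ i, (B i)ᶜ ∈ F := by
    intro i
    rw [hF]
    refine ⟨{i}, ?_, univ, IsClub.univ, ?_⟩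
    · rw [Cardinal.mk_singleton]
      exact Cardinal.one_lt_aleph0.trans_le hκ.aleph0_le
    · rintro x ⟨-, hx⟩
      simpa using hx
  have hA2 : ∀ I : Set (succ κ).ord.ToType, κ ≤ #I → (⋂ i ∈ I, (B i)ᶜ) ∉ F := by
    intro I hI
    rw [hF]
    rintro ⟨J, hJ, C, hC, h⟩
    have h1 : ∃ i ∈ I, i ∉ J := by
      by_contra hcon
      push Not at hcon
      exact absurd (hI.trans (Cardinal.mk_le_mk_of_subset hcon)) (not_le.2 hJ)
    obtain ⟨i, hiI, hiJ⟩ := h1
    obtain ⟨p, hp1, hp2⟩ := hBpos i J hJ hiJ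
    obtain ⟨x, hx1, hx2⟩ := hS1 p hC
    have h3 : x ∈ ⋂ i ∈ I, (B i)ᶜ := by
      refine h ⟨hx2, ?_⟩
      simp only [mem_iInter]
      intro j hj hxj
      exact disjoint_left.1 (hp2 j hj) hx1 hxj
    simp only [mem_iInter] at h3
    exact h3 i hiI (hp1 hx1)
  refine ⟨F, hne, hcompl, hclub, ?_, fun i => (B i)ᶜ, hA1, hA2⟩
  intro hG
  obtain ⟨I, hI1, hI2⟩ := hG (fun i => (B i)ᶜ) hA1
  exact hA2 I hI1.ge hI2

end Pool.Agent.Results.MP_45cf3b_lc.ClubFilterExtension
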